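import Mathlib
import Pool.Agent.P.MP_2e17cf_an.Basic

set_option autoImplicit false

namespace Pool.Agent.Results.MP_2e17cf_an.Counterexample

open Matrix Pool.Agent.P.MP_2e17cf_an

/-- An instance of the CDT subproblem, with a unique global minimiser, that has a local nonglobal
minimiser and a KKT point, not a global minimiser, whose value is below the infimum of the local
nonglobal minimum values. -/
theorem result :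
    ∃ (n : ℕ) (Q A₁ A₂ : Matrix (Fin n) (Fin n) ℝ) (c b₁ b₂ : Fin n → ℝ) (d₁ d₂ : ℝ)
      (f g₁ g₂ : (Fin n → ℝ) → ℝ) (F : Set (Fin n → ℝ)),
      1 ≤ n ∧ Q.IsSymm ∧ A₁.PosDef ∧ A₂.PosDef ∧
      (∀ x, f x = 1 / 2 * (x ⬝ᵥ Q *ᵥ x) + c ⬝ᵥ x) ∧
      (∀ x, g₁ x = x ⬝ᵥ A₁ *ᵥ x + 2 * (b₁ ⬝ᵥ x) + d₁) ∧
      (∀ x, g₂ x = x ⬝ᵥ A₂ *ᵥ x + 2 * (b₂ ⬝ᵥ x) + d₂) ∧
      F = {x | g₁ x ≤ 0 ∧ g₂ x ≤ 0} ∧
      (∃! x, x ∈ F ∧ IsMinOn f F x) ∧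
      (∃ y, y ∈ F ∧ IsLocalMinOn f F y ∧ ¬ IsMinOn f F y) ∧
      ∃ v : ℝ, IsGLB (f '' {y | y ∈ F ∧ IsLocalMinOn f F y ∧ ¬ IsMinOn f F y}) v ∧
        ∃ x, x ∈ F ∧
          (∃ μ₁ μ₂ : ℝ, 0 ≤ μ₁ ∧ 0 ≤ μ₂ ∧
            Q *ᵥ x + c + μ₁ • ((2 : ℝ) • (A₁ *ᵥ x + b₁)) + μ₂ • ((2 : ℝ) • (A₂ *ᵥ x + b₂)) = 0 ∧
            μ₁ * g₁ x = 0 ∧ μ₂ * g₂ x = 0) ∧
          ¬ IsMinOn f F x ∧ f x < v := by
  have hp1 : (![-1, 0, 1] : Fin 3 → ℝ) ∈ feas ∧ IsLocalMinOn obj feas ![-1, 0, 1] ∧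
      ¬ IsMinOn obj feas ![-1, 0, 1] :=
    ⟨p1_mem, isLocalMinOn_p1, not_isMinOn_of_lt _ (by rw [obj_p1]; norm_num)⟩
  have hlow : (-48 : ℝ) ∈ lowerBounds
      (obj '' {y | y ∈ feas ∧ IsLocalMinOn obj feas y ∧ ¬ IsMinOn obj feas y}) := by
    rintro _ ⟨y, hy, rfl⟩
    exact localMin_value y hy.1 hy.2.1 hy.2.2
  have hglb := Real.isGLB_sInf ⟨_, Set.mem_image_of_mem obj hp1⟩ ⟨_, hlow⟩
  refine ⟨3, diagonal ![-40, -40, -40], diagonal ![9, 9, 16], diagonal ![2, 2, 1], ![1, 0, 10],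
    0, 0, -25, -3, obj, fun w => 9 * w 0 ^ 2 + 9 * w 1 ^ 2 + 16 * w 2 ^ 2 - 25,
    fun w => 2 * w 0 ^ 2 + 2 * w 1 ^ 2 + w 2 ^ 2 - 3, feas, by norm_num, isSymm_diagonal _,
    ?_, ?_, ?_, ?_, ?_, rfl, ⟨![-1, 0, -1], ⟨p0_mem, isMinOn_p0⟩, fun w hw => eq_p0 w hw.1 hw.2⟩,
    ⟨_, hp1⟩, _, hglb, ![1, 0, -1], q_mem, ⟨61 / 46, 87 / 23, by norm_num, by norm_num, ?_, ?_, ?_⟩,
    not_isMinOn_of_lt _ (by rw [obj_q]; norm_num), ?_⟩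
  · refine PosDef.diagonal fun i => ?_
    fin_cases i <;> simp
  · refine PosDef.diagonal fun i => ?_
    fin_cases i <;> simp
  · intro x
    simp [obj, dotProduct, mulVec_diagonal, Fin.sum_univ_three]
    ring
  · intro x
    simp [dotProduct, mulVec_diagonal, Fin.sum_univ_three]
    ring
  · intro x
    simp [dotProduct, mulVec_diagonal, Fin.sum_univ_three]
    ring
  · ext i
    simp only [Pi.add_apply, Pi.smul_apply, mulVec_diagonal, Pi.zero_apply, smul_eq_mul]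
    fin_cases i <;> simp <;> norm_num
  · simp
    norm_num
  · simp
    norm_num
  · have := hglb.2 hlow
    rw [obj_q]
    linarith

end Pool.Agent.Results.MP_2e17cf_an.Counterexample
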